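import Pool.Agent.H98.SD.Targets
import Pool.Agent.H7.HD.All

/-!
# MP_e37c09_lc, board SecondDichotomy: row CNT, the number of the classes for one parameter
-/

open Ordinal Cardinal Order Set
open _root_.HD _root_.HD.SD
open scoped ZFSet

universe u

namespace Pool.Agent.H30.SD

open HD.NF (w0)

theorem pos_mono {μ ρ : Ordinal.{u}} {X Y : Set Ordinal.{u}} (h : X ⊆ Y) (hX : Pos μ ρ X) :
    Pos μ ρ Y := by
  intro C hC
  obtain ⟨b, h1, h2, h3, h4⟩ := hX C hC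
  exact ⟨b, h1, h2, h h3, h4⟩

/-- the least codes of the classes -/
def J (en : Ordinal.{u} → ZFSet.{u}) (κ : Ordinal.{u}) (x : ZFSet.{u}) : Set Ordinal.{u} :=
  {c | ∀ c' < c, ¬ Eqv κ (Sc en x c) (Sc en x c')}

theorem dx_J (hDXS : T_DXS.{u}) (hDXP : T_DXP.{u}) (en : Ordinal.{u} → ZFSet.{u}) (hen : EN en)
    (κ : Ordinal.{u}) : DX fun x w => w 0 ∈ J en κ x := by
  have h0 := (hDXS en hen).1
  -- `w 0 ∈ Sc (w 1) ↔ w 0 ∈ Sc (w 2)`
  have h1 : DX fun x w => ¬ (w 0 ∈ Sc en x (w 3) ↔ w 0 ∈ Sc en x (w 4)) :=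
    ((h0.ren fun n => if n = 0 then 0 else 3).iff (h0.ren fun n => if n = 0 then 0 else 4)).not
  have h2 := hDXP _ h1 0 1
  have h3 : DX fun x w => Pos (w 0) (w 1) {b | ¬ (b ∈ Sc en x (w 2) ↔ b ∈ Sc en x (w 3))} := h2
  have h4 : DX fun x w => Pos w0 (w 0) {b | ¬ (b ∈ Sc en x (w 1) ↔ b ∈ Sc en x (w 2))} :=
    DX.sub (S := fun a x w => Pos a (w 0) {b | ¬ (b ∈ Sc en x (w 1) ↔ b ∈ Sc en x (w 2))}) w0 h3
  have h5 : DX fun x w => Pos w0 κ {b | ¬ (b ∈ Sc en x (w 0) ↔ b ∈ Sc en x (w 1))} :=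
    DX.sub (S := fun a x w => Pos w0 a {b | ¬ (b ∈ Sc en x (w 0) ↔ b ∈ Sc en x (w 1))}) κ h4
  have h6 : DX fun x w => Pos w0 κ {b | ¬ (b ∈ Sc en x (w 1) ↔ b ∈ Sc en x (w 0))} :=
    h5.ren fun n => if n = 0 then 1 else 0
  have h7 : DX fun x w => ∀ c' < w 0, Pos w0 κ {b | ¬ (b ∈ Sc en x (w 0) ↔ b ∈ Sc en x c')} :=
    DX.allLt (S := fun a x w => Pos w0 κ {b | ¬ (b ∈ Sc en x (w 0) ↔ b ∈ Sc en x a)}) 0 h6
  refine h7.congr fun x w => ?_
  unfold J Eqv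
  simp only [mem_ofPred_eq, not_not]

/-- the family of the sets with the codes in `J` -/
def PJ (en : Ordinal.{u} → ZFSet.{u}) (κ : Ordinal.{u}) (x : ZFSet.{u})
    (w : ℕ → Ordinal.{u}) : Prop := ∃ c, nth (J en κ x) (w 1) c ∧ w 0 ∈ Sc en x c

theorem dx_PJ (hDXS : T_DXS.{u}) (hDXP : T_DXP.{u}) (hDXN : T_DXN.{u})
    (en : Ordinal.{u} → ZFSet.{u}) (hen : EN en) (κ : Ordinal.{u}) : DX (PJ en κ) := by
  have h0 := (hDXS en hen).1
  have h1 := dx_J hDXS hDXP en hen κ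
  have h2 : DX fun x w => nth (J en κ x) (w 0) (w 1) := hDXN _ h1
  have h3 : DX fun x w => nth (J en κ x) (w 2) (w 0) ∧ w 1 ∈ Sc en x (w 0) :=
    (h2.ren fun n => if n = 0 then 2 else 0).and (h0.ren fun n => if n = 0 then 1 else 0)
  exact DX.ex (S := fun c x w => nth (J en κ x) (w 1) c ∧ w 0 ∈ Sc en x c) h3

theorem fam_PJ {en : Ordinal.{u} → ZFSet.{u}} {κ : Ordinal.{u}} {x : ZFSet.{u}}
    {w : ℕ → Ordinal.{u}} {i c : Ordinal.{u}} (h : nth (J en κ x) i c) :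
    fam (PJ en κ) x w i = Sc en x c := by
  ext b
  constructor
  · rintro ⟨c', h1, h2⟩
    have h3 : nth (J en κ x) i c' := h1
    have h4 : c' = c := by
      rcases lt_trichotomy c' c with h5 | h5 | h5
      · exact absurd ((All.vh _).2.1 _ _ _ _ h3 h |>.2 h5) (lt_irrefl _)
      · exact h5
      · exact absurd ((All.vh _).2.1 _ _ _ _ h h3 |>.2 h5) (lt_irrefl _)
    rw [← h4]
    exact h2
  · intro h1
    exact ⟨c, h, h1⟩

theorem pf_CNT (hDXS : T_DXS.{u}) (hDXP : T_DXP.{u}) (hDXN : T_DXN.{u}) (hTYP : T_TYP.{u}) :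
    T_CNT.{u} := by
  intro en t L hS x hx M hM hML hspl
  set κ : Ordinal.{u} := (succ L).ord with hκ
  set ν : Ordinal.{u} := (succ ((2 : Cardinal.{u}) ^ M)).ord with hν
  have hνL : ν < L.ord := by
    rw [hν, ord_lt_ord]
    have h1 := hS.lim M hML
    have h2 := hS.lim _ h1
    exact (succ_le_of_lt (cantor _)).trans_lt h2
  change Few ν (J en κ x)
  rcases (All.vh (J en κ x)).2.2.2 ν with h | h
  · exact h
  exfalso
  choose! c hc using h
  obtain ⟨S, -, w', hfew, -, -, hcov⟩ := hTYP en t L hS x hx M hM hML hspl (PJ en κ)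
    (dx_PJ hDXS hDXP hDXN en hS.hen κ) (fun _ => 0) ν hνL
  obtain ⟨τ, hτ, e, he⟩ := hfew
  -- the classes are determined by subsets of `τ`
  have hinj : ∀ i < ν, ∀ k < ν, i < k →
      ({a : Iio τ | S x (cns (e a.1) w') ∧ i ∈ dec t x (e a.1)} : Set (Iio τ)) ≠
        {a : Iio τ | S x (cns (e a.1) w') ∧ k ∈ dec t x (e a.1)} := by
    intro i hi k hk hik heq
    have h1 : ∀ ξ, S x (cns ξ w') → (i ∈ dec t x ξ ↔ k ∈ dec t x ξ) := by
      intro ξ hξ
      obtain ⟨a, ha, rfl⟩ := he ξ hξ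
      have h2 := Set.ext_iff.1 heq ⟨a, ha⟩
      simp only [mem_ofPred_eq] at h2
      constructor
      · intro h3
        exact (h2.1 ⟨hξ, h3⟩).2
      · intro h3
        exact (h2.2 ⟨hξ, h3⟩).2
    have h2 : c i < c k := ((All.vh (J en κ x)).2.1 _ _ _ _ (hc i hi) (hc k hk)).1 hik
    have h3 : c k ∈ J en κ x := (hc k hk).1
    refine h3 (c i) h2 ?_
    intro hpos
    refine hcov (pos_mono ?_ hpos)
    intro b hb ξ hξ hbξ
    refine hb ?_
    have h4 := hbξ i hi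
    have h5 := hbξ k hk
    rw [fam_PJ (hc i hi)] at h4
    rw [fam_PJ (hc k hk)] at h5
    exact h5.trans ((h1 ξ hξ).symm.trans h4.symm)
  have hinj2 : Function.Injective fun i : Iio ν =>
      ({a : Iio τ | S x (cns (e a.1) w') ∧ i.1 ∈ dec t x (e a.1)} : Set (Iio τ)) := by
    intro i k hik
    by_contra hne
    rcases lt_or_gt_of_ne hne with h1 | h1
    · exact hinj i.1 i.2 k.1 k.2 h1 hik
    · exact hinj k.1 k.2 i.1 i.2 h1 hik.symm
  have h1 := Cardinal.mk_le_of_injective hinj2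
  rw [mk_set, Cardinal.mk_Iio_ordinal, Cardinal.mk_Iio_ordinal, ← lift_two_power, Cardinal.lift_le, hν, card_ord] at h1
  have h2 : τ.card ≤ M := by
    have := lt_ord.1 hτ
    exact this.le
  have h3 : (2 : Cardinal.{u}) ^ τ.card ≤ 2 ^ M := power_le_power_left two_ne_zero h2
  exact absurd (h1.trans h3) (not_le.2 (lt_succ _))

end Pool.Agent.H30.SD
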