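import Pool.Agent.H98.SD.TargetsE
import Pool.Agent.H30.SD.CNM

/-!
# MP_e37c09_lc, board SecondDichotomy: row CNE, the number of the classes for one parameter,
any cofinality, any definable enumeration
-/

open Ordinal Cardinal Order Set
open _root_.HD _root_.HD.SD
open scoped ZFSet

universe u

namespace Pool.Agent.H30.SD

open HD.NF (w0)

theorem pf_CNE (hDXS : T_DXS.{u}) (hDXP : T_DXP.{u}) (hDXN : T_DXN.{u}) (hTYP : T_TYE.{u}) :
    T_CNE.{u} := by
  intro en t L hS D x hx M hM hML μ hspl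
  set κ : Ordinal.{u} := (succ L).ord with hκ
  set ν : Ordinal.{u} := (succ ((2 : Cardinal.{u}) ^ M)).ord with hν
  have hνL : ν < L.ord := by
    rw [hν, ord_lt_ord]
    have h1 := hS.lim M hML
    have h2 := hS.lim _ h1
    exact (succ_le_of_lt (cantor _)).trans_lt h2
  change Few ν (JM en μ κ x)
  rcases (All.vh (JM en μ κ x)).2.2.2 ν with h | h
  · exact h
  exfalso
  choose! c hc using h
  obtain ⟨S, -, w', hfew, -, -, hcov⟩ := hTYP en t L hS D x hx M hM hML μ hspl (PJM en μ κ)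
    (dx_PJM hDXS hDXP hDXN en hS.hen μ κ) (fun _ => 0) ν hνL
  obtain ⟨τ, hτ, e, he⟩ := hfew
  -- the classes are determined by subsets of `τ`
  have hinj : ∀ i < ν, ∀ k < ν, i < k →
      ({a : Iio τ | S x (cns (e a.1) w') ∧ i ∈ D x (e a.1)} : Set (Iio τ)) ≠
        {a : Iio τ | S x (cns (e a.1) w') ∧ k ∈ D x (e a.1)} := by
    intro i hi k hk hik heq
    have h1 : ∀ ξ, S x (cns ξ w') → (i ∈ D x ξ ↔ k ∈ D x ξ) := by
      intro ξ hξ
      obtain ⟨a, ha, rfl⟩ := he ξ hξ
      have h2 := Set.ext_iff.1 heq ⟨a, ha⟩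
      simp only [mem_ofPred_eq] at h2
      constructor
      · intro h3
        exact (h2.1 ⟨hξ, h3⟩).2
      · intro h3
        exact (h2.2 ⟨hξ, h3⟩).2
    have h2 : c i < c k := ((All.vh (JM en μ κ x)).2.1 _ _ _ _ (hc i hi) (hc k hk)).1 hik
    have h3 : c k ∈ JM en μ κ x := (hc k hk).1
    refine h3 (c i) h2 ?_
    intro hpos
    refine hcov (pos_mono ?_ hpos)
    intro b hb ξ hξ hbξ
    refine hb ?_
    have h4 := hbξ i hi
    have h5 := hbξ k hk
    rw [fam_PJM (hc i hi)] at h4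
    rw [fam_PJM (hc k hk)] at h5
    exact h5.trans ((h1 ξ hξ).symm.trans h4.symm)
  have hinj2 : Function.Injective fun i : Iio ν =>
      ({a : Iio τ | S x (cns (e a.1) w') ∧ i.1 ∈ D x (e a.1)} : Set (Iio τ)) := by
    intro i k hik
    by_contra hne
    rcases lt_or_gt_of_ne hne with h1 | h1
    · exact hinj i.1 i.2 k.1 k.2 h1 hik
    · exact hinj k.1 k.2 i.1 i.2 h1 hik.symm
  have h1 := Cardinal.mk_le_of_injective hinj2
  rw [mk_set, Cardinal.mk_Iio_ordinal, Cardinal.mk_Iio_ordinal, ← lift_two_power, Cardinal.lift_le, hν, card_ord] at h1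
  have h2 : τ.card ≤ M := by
    have := lt_ord.1 hτ
    exact this.le
  have h3 : (2 : Cardinal.{u}) ^ τ.card ≤ 2 ^ M := power_le_power_left two_ne_zero h2
  exact absurd (h1.trans h3) (not_le.2 (lt_succ _))

end Pool.Agent.H30.SD
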